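import Pool.Agent.H18.TD.Targets

/-!
Board td1_modules (MP_58ae59_nt), row ZR2.
-/

set_option autoImplicit false

open Polynomial Module Filter Topology Pool.Agent.H18.TD Pool.Agent.H72.HR

namespace Pool.Agent.H34.TD

theorem pf_ZR2 : T_ZR2 := by
  intro r l T0 T1 L Θ hS
  set Θ' : Set (Fin l → ℚ) := (fun (u : Fin r ⊕ Fin l → ℤ) (a : Fin l) =>
    (u (Sum.inr a) : ℚ)) '' Θ with hΘ'
  set V := Submodule.span ℚ Θ' with hV
  let b := Module.finBasis ℚ V
  have h1 : LinearIndependent ℚ (fun i => ((b i : V) : Fin l → ℚ)) :=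
    b.linearIndependent.map' V.subtype (Submodule.ker_subtype _)
  have h2 : LinearIndependent ℂ (fun i => (algebraMap ℚ ℂ) ∘ ((b i : V) : Fin l → ℚ)) :=
    linearIndependent_algebraMap_comp_iff.2 h1
  let B : Matrix (Fin (finrank ℚ V)) (Fin l) ℂ :=
    Matrix.of (fun i => (algebraMap ℚ ℂ) ∘ ((b i : V) : Fin l → ℚ))
  have h3 : B.rank = finrank ℚ V := by
    have h := LinearIndependent.rank_matrix (M := B) h2
    rw [h, Fintype.card_fin]
  have h4 : finrank ℚ V + finrank ℂ (LinearMap.ker B.mulVecLin) = l := by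
    have h := LinearMap.finrank_range_add_finrank_ker B.mulVecLin
    rw [finrank_fin_fun] at h
    have h' : B.rank + finrank ℂ (LinearMap.ker B.mulVecLin) = l := h
    omega
  let ψ : (Fin l → ℂ) →ₗ[ℂ] (Fin r ⊕ Fin l → ℂ) :=
    { toFun := fun z => Sum.elim (fun _ => 0) z
      map_add' := by
        intro x y
        funext i
        cases i <;> simp
      map_smul' := by
        intro a x
        funext i
        cases i <;> simp }
  have hψ : Function.Injective ψ := by
    intro x y h
    funext i
    exact congrFun h (Sum.inr i)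
  -- a vector orthogonal to all of Θ' is orthogonal to V
  have h5 : ∀ x : Fin l → ℂ, (∀ u ∈ Θ, ∑ a, (u (Sum.inr a) : ℂ) * x a = 0) →
      ∀ v ∈ V, ∑ a, ((v a : ℚ) : ℂ) * x a = 0 := by
    intro x hx v hv
    refine Submodule.span_induction ?_ ?_ ?_ ?_ hv
    · rintro _ ⟨u, hu, rfl⟩
      have := hx u hu
      simpa using this
    · simp
    · intro y z _ _ hy hz
      simp only [Pi.add_apply, Rat.cast_add, add_mul, Finset.sum_add_distrib, hy, hz, add_zero]
    · intro q y _ hy
      simp only [Pi.smul_apply, smul_eq_mul, Rat.cast_mul, mul_assoc, ← Finset.mul_sum, hy,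
        mul_zero]
  have h6 : ∀ x : Fin l → ℂ, x ∈ LinearMap.ker B.mulVecLin ↔
      ∀ u ∈ Θ, ∑ a, (u (Sum.inr a) : ℂ) * x a = 0 := by
    intro x
    constructor
    · intro hx u hu
      have hx' : B.mulVec x = 0 := hx
      have hmem : (fun a : Fin l => (u (Sum.inr a) : ℚ)) ∈ V :=
        Submodule.subset_span ⟨u, hu, rfl⟩
      have hrep := b.sum_repr ⟨_, hmem⟩
      have hrep' : ∀ a : Fin l, (u (Sum.inr a) : ℚ) =
          ∑ i, b.repr ⟨_, hmem⟩ i * ((b i : V) : Fin l → ℚ) a := by
        intro a
        have h := congrArg (fun z : V => (z : Fin l → ℚ) a) hrep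
        simp only [Submodule.coe_sum, Submodule.coe_smul, Finset.sum_apply, Pi.smul_apply,
          smul_eq_mul] at h
        exact h.symm
      have hrow : ∀ i, ∑ a, ((((b i : V) : Fin l → ℚ) a : ℚ) : ℂ) * x a = 0 := by
        intro i
        have h := congrFun hx' i
        simpa [B, Matrix.mulVec, dotProduct] using h
      calc ∑ a, (u (Sum.inr a) : ℂ) * x a
          = ∑ a, ∑ i, ((b.repr ⟨_, hmem⟩ i : ℚ) : ℂ) *
              (((((b i : V) : Fin l → ℚ) a : ℚ) : ℂ) * x a) := by
            refine Finset.sum_congr rfl fun a _ => ?_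
            have h : ((u (Sum.inr a) : ℤ) : ℂ) = (((u (Sum.inr a) : ℤ) : ℚ) : ℂ) := by
              push_cast
              rfl
            rw [h, hrep' a, Rat.cast_sum, Finset.sum_mul]
            refine Finset.sum_congr rfl fun i _ => ?_
            rw [Rat.cast_mul, mul_assoc]
        _ = ∑ i, ((b.repr ⟨_, hmem⟩ i : ℚ) : ℂ) *
              ∑ a, ((((b i : V) : Fin l → ℚ) a : ℚ) : ℂ) * x a := by
            rw [Finset.sum_comm]
            refine Finset.sum_congr rfl fun i _ => ?_
            rw [Finset.mul_sum]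
        _ = 0 := by simp [hrow]
    · intro hx
      change B.mulVec x = 0
      funext i
      have h := h5 x hx _ (b i).2
      simpa [B, Matrix.mulVec, dotProduct] using h
  have h7 : Lie kap (⊥ : Submodule ℂ (Fin r ⊕ Fin l → ℂ)) Θ =
      (LinearMap.ker B.mulVecLin).map ψ := by
    ext g
    constructor
    · rintro ⟨hg1, hg2⟩
      have hg3 : ∀ i : Fin r, g (Sum.inl i) = 0 := by
        intro i
        have h := (Submodule.mem_bot ℂ).1 hg1
        have := congrFun h (Sum.inl i)
        simpa [kap] using this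
      refine ⟨fun a => g (Sum.inr a), ?_, ?_⟩
      · refine (h6 _).2 fun u hu => ?_
        have h := hg2 u hu
        rw [Fintype.sum_sum_type] at h
        simpa [hg3] using h
      · funext i
        cases i with
        | inl i => exact (hg3 i).symm
        | inr i => rfl
    · rintro ⟨x, hx, rfl⟩
      refine ⟨?_, ?_⟩
      · refine (Submodule.mem_bot ℂ).2 ?_
        funext i
        cases i <;> simp [kap, ψ]
      · intro u hu
        rw [Fintype.sum_sum_type]
        have h := (h6 x).1 hx u hu
        simpa [ψ] using h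
  rw [h7, ← (Submodule.equivMapOfInjective ψ hψ (LinearMap.ker B.mulVecLin)).finrank_eq]
  exact h4

end Pool.Agent.H34.TD
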