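import Pool.Agent.H18.TD.Targets

/-!
Board td1_modules (MP_58ae59_nt), row ZR4.
-/

set_option autoImplicit false

open Polynomial Module Filter Topology Pool.Agent.H18.TD Pool.Agent.H72.HR

namespace Pool.Agent.H34.TD

theorem pf_ZR4 : T_ZR4 := by
  intro r l c Y L G hY _ hG hGL
  obtain ⟨f, hf⟩ := exists_linearIndependent_of_le_finrank (R := ℤ) (M := G) hG
  have h1 : LinearIndependent ℤ (fun i => ((f i : Fin c → ℤ))) :=
    hf.map' (AddSubgroup.toIntSubmodule G).subtype (Submodule.ker_subtype _)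
  have h2 : LinearIndependent ℂ (fun i => (algebraMap ℤ ℂ) ∘ ((f i : Fin c → ℤ))) :=
    linearIndependent_algebraMap_comp_iff.2 h1
  have h3 : Submodule.span ℂ (Set.range (fun i => (algebraMap ℤ ℂ) ∘ ((f i : Fin c → ℤ)))) = ⊤ :=
    h2.span_eq_top_of_card_eq_finrank' (by simp)
  let ι : (Fin r → ℂ) →ₗ[ℂ] (Fin r ⊕ Fin l → ℂ) :=
    { toFun := fun z => Sum.elim z (fun _ => 0)
      map_add' := by
        intro x y
        funext i
        cases i <;> simp
      map_smul' := by
        intro a x
        funext i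
        cases i <;> simp }
  have hι : Function.Injective ι := by
    intro x y h
    funext i
    exact congrFun h (Sum.inl i)
  have h4 : (LinearMap.range Y.mulVecLin).map ι ≤ L := by
    rw [← Submodule.map_top, ← h3, ← Submodule.map_comp, Submodule.map_span, Submodule.span_le]
    rintro _ ⟨_, ⟨i, rfl⟩, rfl⟩
    have h5 := hGL (f i) (f i).2
    have h6 : (ι ∘ₗ Y.mulVecLin) ((algebraMap ℤ ℂ) ∘ ((f i : Fin c → ℤ))) =
        Sum.elim (fun p => ∑ j, Y p j * (((f i : Fin c → ℤ) j : ℤ) : ℂ)) (fun _ => 0) := by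
      funext p
      cases p with
      | inl p =>
        simp [ι, Matrix.mulVec, dotProduct]
      | inr p => simp [ι]
    change (ι ∘ₗ Y.mulVecLin) ((algebraMap ℤ ℂ) ∘ ((f i : Fin c → ℤ))) ∈ L
    rw [h6]
    exact h5
  have h7 : finrank ℂ ((LinearMap.range Y.mulVecLin).map ι) = r := by
    rw [← (Submodule.equivMapOfInjective ι hι (LinearMap.range Y.mulVecLin)).finrank_eq]
    exact hY
  exact h7.symm.le.trans (Submodule.finrank_mono h4)

end Pool.Agent.H34.TD
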